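import Mathlib
import Pool.Agent.Y315.SC.Ent2

set_option autoImplicit false

open MeasureTheory Filter Topology

/-- **Digit entropies are bounded by the deviations of one character.**
Let `Q` be odd, `Q < 2 ^ r`, `m ≠ 0` and `c ≠ 0`, and write
`A_L (x) = (1 / L) ∑_{i < L} e (m Q ^ i x)`, and
`H_N (μ) = ∑_{j < 2 ^ N} -μ [j / 2 ^ N, (j + 1) / 2 ^ N) log μ [j / 2 ^ N, (j + 1) / 2 ^ N)`,
the Shannon entropy of the first `N` binary digits.
(1) For every `t < |c|` there is a constant `K` such that, for all probability measures `μ` on the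
circle which are invariant under `x ↦ 2 x` (no ergodicity, invariance under `x ↦ Q x` or
atomlessness) and all `N`,
`H_N (μ) ≤ K + ∑_{k < N} h (min (μ {x | |A_{⌊k / r⌋} (x) - c| > t}, 1 / 2))`, where
`h (u) = -u log u - (1 - u) log (1 - u)`.
(2) If moreover the mean square of `A_L - c` is at most `C L ^ (-θ)`, `0 < θ < 1`, then
`H_N (μ) = O (N ^ (1 - θ) log N)`. -/
theorem Pool.Agent.Results.MP_e27144_an.EntropyBound.result :
    ∀ Q r : ℕ, Odd Q → Q < 2 ^ r → ∀ m : ℤ, m ≠ 0 → ∀ c : ℂ, c ≠ 0 →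
      (∀ t : ℝ, t < ‖c‖ → ∃ K : ℝ, ∀ μ : Measure UnitAddCircle, IsProbabilityMeasure μ →
        MeasurePreserving (fun x : UnitAddCircle => 2 • x) μ μ → ∀ N : ℕ,
          ∑ j ∈ Finset.range (2 ^ N), Real.negMulLog (μ.real ((fun x : ℝ => (x : UnitAddCircle)) ''
              Set.Ico ((j : ℝ) / 2 ^ N) (((j : ℝ) + 1) / 2 ^ N))) ≤
            K + ∑ k ∈ Finset.range N, Real.binEntropy (min (μ.real {x | t <
              ‖((k / r : ℕ) : ℂ)⁻¹ * ∑ i ∈ Finset.range (k / r), fourier m ((Q ^ i) • x) - c‖})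
                2⁻¹)) ∧
      (∀ μ : Measure UnitAddCircle, IsProbabilityMeasure μ →
        MeasurePreserving (fun x : UnitAddCircle => 2 • x) μ μ → ∀ θ C : ℝ, 0 < θ → θ < 1 →
          (∀ L : ℕ, 1 ≤ L → ∫ x, ‖(L : ℂ)⁻¹ * ∑ i ∈ Finset.range L, fourier m ((Q ^ i) • x) - c‖ ^ 2
            ∂μ ≤ C * (L : ℝ) ^ (-θ)) →
          ∃ D : ℝ, ∀ N : ℕ, 1 ≤ N →
            ∑ j ∈ Finset.range (2 ^ N), Real.negMulLog (μ.real ((fun x : ℝ => (x : UnitAddCircle)) ''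
              Set.Ico ((j : ℝ) / 2 ^ N) (((j : ℝ) + 1) / 2 ^ N))) ≤
            D * (N : ℝ) ^ (1 - θ) * (1 + Real.log N)) := by
  intro Q r hQ hr m hm c hc
  have hQ1 : 1 ≤ Q := hQ.pos
  have hQ2 : Q ≡ 1 [MOD 2] := Nat.odd_iff.1 hQ
  refine ⟨fun t ht => ?_, fun μ hμ hi θ C h0 h1 hV => ?_⟩
  · exact Pool.Agent.Y315.SC.entropy_main hQ1 hQ2 hr hm hc ht
  · exact Pool.Agent.Y315.SC.entropy_rate hQ1 hQ2 hi hm hc h0 h1 hV
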