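import Mathlib
import Pool.Agent.Y315.FC.TwoThree

set_option autoImplicit false

open MeasureTheory

/-- **Sharp bounds for the first Fourier coefficient of `×2`, `×3` invariant measures.**
No entropy, no ergodicity, atoms are allowed. Let `c = ∫ e(x) dμ(x)` for a probability measure `μ`
on the circle which is invariant under `x ↦ 2 x` and `x ↦ 3 x`.
(1) `|Im c| ≤ √23 / 22` and `Re c ≥ -1/4 + (9 √23 / 46) |Im c|`;
(2) for every phase `θ` with `cos θ ≤ 0` (half of all phases) the greatest value of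
`∫ cos (2 π x - θ) dμ(x)` over all these `μ` is
`max (-cos θ / 4) ((√23 |sin θ| - cos θ) / 22)`. It is attained by the uniform measure on the
periodic orbit of `1/5`, or on that of `1/23` or `-1/23`. -/
theorem Pool.Agent.Results.MP_e27144_an.FirstCoefficient.result :
    (∀ μ : Measure UnitAddCircle, IsProbabilityMeasure μ →
      MeasurePreserving (fun x : UnitAddCircle => 2 • x) μ μ →
      MeasurePreserving (fun x : UnitAddCircle => 3 • x) μ μ →
        |(∫ x, (fourier 1 x : ℂ) ∂μ).im| ≤ Real.sqrt 23 / 22 ∧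
        -1 / 4 + 9 * Real.sqrt 23 / 46 * |(∫ x, (fourier 1 x : ℂ) ∂μ).im| ≤
          (∫ x, (fourier 1 x : ℂ) ∂μ).re) ∧
    (∀ θ : ℝ, Real.cos θ ≤ 0 →
      IsGreatest {v : ℝ | ∃ μ : Measure UnitAddCircle, IsProbabilityMeasure μ ∧
        MeasurePreserving (fun x : UnitAddCircle => 2 • x) μ μ ∧
        MeasurePreserving (fun x : UnitAddCircle => 3 • x) μ μ ∧
        v = ∫ x, ((fourier 1 x : ℂ) * Complex.exp (-θ * Complex.I)).re ∂μ}
        (max (-Real.cos θ / 4) ((Real.sqrt 23 * |Real.sin θ| - Real.cos θ) / 22))) :=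
  ⟨fun _ _ h2 h3 => Pool.Agent.Y315.FC.region h2 h3, fun θ hθ => Pool.Agent.Y315.FC.main θ hθ⟩
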