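import Mathlib
import Pool.Agent.Y315.SC.Mov

set_option autoImplicit false

open MeasureTheory Filter Topology

/-- **Moving averages characterise Lebesgue measure.**
Let `p` be a prime, `q` and `d` natural numbers with `q ^ d ≥ 2` and `q ^ d ≡ 1 (mod p)` (for
instance `p = 2, q = 3, d = 1`, or `p = 3, q = 2, d = 2`). Let `μ` be an atomless probability
measure on the circle `R/Z`, invariant under `x ↦ p x` and `x ↦ q x` and ergodic for the joint
action.
(1) For each single frequency `m ≠ 0` with `μ^(m) ≠ 0` there are positions `(a_L, b_L)` such that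
for `μ`-almost every `x` the averages of `e (m n x)` over the windows
`n = p ^ (a_L) q ^ (b_L) q ^ (d i)`, `0 ≤ i < L`, are infinitely often at distance more than `t`
from `μ^(m)`, for each `t < sin (π / p) |μ^(m)|` (for `p = 2`: each `t < |μ^(m)|`).
(2) `μ` is Lebesgue measure if and only if for all `m` and all positions `(a_L, b_L)` these moving
averages converge to `μ^(m)` at `μ`-almost every point. -/
theorem Pool.Agent.Results.MP_e27144_an.MovingAverages.result :
    ∀ p q d : ℕ, p.Prime → 2 ≤ q ^ d → q ^ d ≡ 1 [MOD p] →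
      ∀ μ : Measure UnitAddCircle, IsProbabilityMeasure μ → (∀ x, μ {x} = 0) →
        MeasurePreserving (fun x : UnitAddCircle => p • x) μ μ →
        MeasurePreserving (fun x : UnitAddCircle => q • x) μ μ →
        (∀ E : Set UnitAddCircle, MeasurableSet E → (fun x : UnitAddCircle => p • x) ⁻¹' E = E →
          (fun x : UnitAddCircle => q • x) ⁻¹' E = E → μ E = 0 ∨ μ E = 1) →
        (∀ m : ℤ, m ≠ 0 → ∫ y, fourier m y ∂μ ≠ 0 →
          ∃ a b : ℕ → ℕ, ∀ᵐ x ∂μ, ∀ t : ℝ,
            t < Real.sin (Real.pi / p) * ‖∫ y, fourier m y ∂μ‖ → ∃ᶠ L : ℕ in atTop,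
              t < ‖(L : ℂ)⁻¹ * ∑ i ∈ Finset.range L,
                fourier m ((p ^ a L * q ^ b L * q ^ (d * i)) • x) - ∫ y, fourier m y ∂μ‖) ∧
        (μ = volume ↔ ∀ (m : ℤ) (a b : ℕ → ℕ), ∀ᵐ x ∂μ, Tendsto (fun L : ℕ =>
          (L : ℂ)⁻¹ * ∑ i ∈ Finset.range L,
            fourier m ((p ^ a L * q ^ b L * q ^ (d * i)) • x)) atTop
          (𝓝 (∫ y, fourier m y ∂μ))) := by
  intro p q d hp hQ hQp μ hμ hna hip hiq herg
  have hAv : ∀ (m : ℤ) (L N : ℕ) (x : UnitAddCircle),
      (L : ℂ)⁻¹ * ∑ i ∈ Finset.range L, fourier m ((N * q ^ (d * i)) • x) =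
        Pool.Agent.Y315.SC.Av (q ^ d) m L (N • x) := by
    intro m L N x
    unfold Pool.Agent.Y315.SC.Av
    congr 1
    refine Finset.sum_congr rfl fun i _ => ?_
    rw [mul_comm N, mul_smul, pow_mul]
  have hq0 : q ≠ 0 := by
    rintro rfl
    rcases Nat.eq_zero_or_pos d with h | h
    · rw [h] at hQ; norm_num at hQ
    · rw [zero_pow (by omega)] at hQ; norm_num at hQ
  have h1 : ∀ m : ℤ, m ≠ 0 → ∫ y, fourier m y ∂μ ≠ 0 →
      ∃ a b : ℕ → ℕ, ∀ᵐ x ∂μ, ∀ t : ℝ,
        t < Real.sin (Real.pi / p) * ‖∫ y, fourier m y ∂μ‖ → ∃ᶠ L : ℕ in atTop,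
          t < ‖(L : ℂ)⁻¹ * ∑ i ∈ Finset.range L,
            fourier m ((p ^ a L * q ^ b L * q ^ (d * i)) • x) - ∫ y, fourier m y ∂μ‖ := by
    intro m hm hc
    obtain ⟨a, b, hab⟩ := Pool.Agent.Y315.SC.moving hp hQ hQp μ hna hip hiq herg hm hc
    refine ⟨a, b, ?_⟩
    filter_upwards [hab] with x hx t ht
    refine (hx t ht).mono fun L hL => ?_
    rw [hAv]
    exact hL
  refine ⟨h1, ?_, ?_⟩
  · intro h m a b
    subst h
    have h2 := Pool.Agent.Y315.SC.moving_vol hQ m (fun L => p ^ a L * q ^ b L) (fun L =>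
      mul_ne_zero (pow_ne_zero _ hp.ne_zero) (pow_ne_zero _ hq0))
    filter_upwards [h2] with x hx
    refine hx.congr fun L => ?_
    rw [hAv]
  · intro h
    refine Pool.Agent.W764.FB.eq_volume fun m hm => ?_
    by_contra hc
    obtain ⟨a, b, hab⟩ := h1 m hm hc
    have h2 := h m a b
    obtain ⟨x, hx1, hx2⟩ := (hab.and h2).exists
    have hpR : (1 : ℝ) < p := by exact_mod_cast hp.one_lt
    have hs0 : 0 < Real.sin (Real.pi / p) := by
      refine Real.sin_pos_of_pos_of_lt_pi (by positivity) ?_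
      rw [div_lt_iff₀ (by linarith)]
      nlinarith [Real.pi_pos]
    have hc0 : 0 < ‖∫ y, fourier m y ∂μ‖ := norm_pos_iff.2 hc
    have h3 := hx1 (Real.sin (Real.pi / p) * ‖∫ y, fourier m y ∂μ‖ / 2) (by
      have := mul_pos hs0 hc0
      linarith)
    have h4 := (Metric.tendsto_nhds.1 hx2) (Real.sin (Real.pi / p) * ‖∫ y, fourier m y ∂μ‖ / 2)
      (by positivity)
    obtain ⟨L, hL1, hL2⟩ := (h3.and_eventually h4).exists
    rw [dist_eq_norm] at hL2
    linarith
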