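import Mathlib
import Pool.Agent.Y315.SC.Mov

set_option autoImplicit false

open MeasureTheory Filter Topology

/-- **Every nonvanishing Fourier coefficient forces slow convergence for its own character.**
Let `p` be a prime, `Q ≥ 2` with `Q ≡ 1 (mod p)` (for instance `p = 2, Q = 3`, or `p = 3, Q = 4`)
and `μ` an atomless probability measure on the circle `R/Z`, invariant under `x ↦ p x` only; no
entropy, no ergodicity. Let `m ≠ 0` be a single frequency. Then
(1) for every constant `c ≠ 0` and every `t < sin (π / p) |c|` the probabilities that the average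
`(1 / L) ∑_{i < L} e (m Q ^ i x)` is at distance more than `t` from `c` have a divergent sum over
`L`;
(2) more generally, for all linear combinations `∑_{i < n_k} a_{k,i} e (m Q ^ i x)` such that
`Q ^ (n_k) ∑_i |a_{k,i}| = o (p ^ k)`, and all `t < sin (π / p)`, the probabilities that the `k`-th
one is at distance more than `t` from `1` have a divergent sum;
(3) if `μ` is also invariant under `x ↦ Q x` then for no `c ≠ 0` is `e (m x) - c` equal almost
everywhere to `g (x) - g (Q x)` with `g` integrable.
For `p = 2`, `Q = 3`: if `μ` is an atomless measure invariant under `×2` and `×3` then, for each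
`m ≠ 0` with `μ^(m) ≠ 0` separately, the averages of `e (m 3 ^ i x)` do not converge completely to
`μ^(m)`; the sum of the probabilities of a deviation by more than `t` diverges for each
`t < |μ^(m)|`. -/
theorem Pool.Agent.Results.MP_e27144_an.OneCharacter.result :
    ∀ p Q : ℕ, p.Prime → 2 ≤ Q → Q ≡ 1 [MOD p] →
      ∀ μ : Measure UnitAddCircle, IsProbabilityMeasure μ → (∀ x, μ {x} = 0) →
        MeasurePreserving (fun x : UnitAddCircle => p • x) μ μ →
        ∀ m : ℤ, m ≠ 0 →
          (∀ c : ℂ, c ≠ 0 → ∀ t : ℝ, t < Real.sin (Real.pi / p) * ‖c‖ →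
            ¬ Summable fun L : ℕ => μ.real {x | t <
              ‖(L : ℂ)⁻¹ * ∑ i ∈ Finset.range L, fourier m ((Q ^ i) • x) - c‖}) ∧
          (∀ (n : ℕ → ℕ) (a : ℕ → ℕ → ℂ),
            Tendsto (fun k : ℕ => (Q : ℝ) ^ (n k) * (∑ i ∈ Finset.range (n k), ‖a k i‖) /
              (p : ℝ) ^ k) atTop (𝓝 0) →
            ∀ t : ℝ, t < Real.sin (Real.pi / p) →
              ¬ Summable fun k : ℕ => μ.real {x | t <
                ‖∑ i ∈ Finset.range (n k), a k i * fourier m ((Q ^ i) • x) - 1‖}) ∧
          (MeasurePreserving (fun x : UnitAddCircle => Q • x) μ μ →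
            ∀ c : ℂ, c ≠ 0 → ∀ g : UnitAddCircle → ℂ, Integrable g μ →
              ¬ ∀ᵐ x ∂μ, fourier m x - c = g x - g (Q • x)) := by
  intro p Q hp hQ hQp μ hμ hna hip m hm
  refine ⟨fun c hc t ht => ?_, fun n a ha t ht => ?_, fun hiQ c hc g hg => ?_⟩
  · exact Pool.Agent.Y315.SC.averages_fixed hp hQ hQp μ hna hip hm hc ht
  · exact Pool.Agent.Y315.SC.main' hp (by omega) hQp μ hna hip hm n a ha ht
  · exact Pool.Agent.Y315.SC.coboundary hp hQ hQp μ hna hip hiQ hm hc g hg
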